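import Pool.Agent.H94.KM.Stem

/-!
The crystal of Nakajima monomials for a simply laced Cartan matrix satisfies the axioms of
Stembridge. An element is a family of functions `p i : ℤ → ℤ` (partial sums of the exponents of the
variables `Y_i(n)`), zero near `-∞` and constant near `∞`.
-/

set_option autoImplicit false

open scoped Classical

namespace Pool.Agent.H29.KM

open Pool.Agent.H59.KY Pool.Agent.H94.KM

noncomputable section

/-- `k` is the last place where `g` is maximal -/
def Lst (g : ℤ → ℤ) (k : ℤ) : Prop := (∀ m, g m ≤ g k) ∧ ∀ m, k < m → g m < g k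

/-- `k` is the first place where `g` is maximal -/
def Fst (g : ℤ → ℤ) (k : ℤ) : Prop := (∀ m, g m ≤ g k) ∧ ∀ m, m < k → g m < g k

/-- `g` is `0` near `-∞` and `c` near `∞` -/
def Tame (N : ℕ) (g : ℤ → ℤ) (c : ℤ) : Prop :=
  (∀ m, m < -(N : ℤ) → g m = 0) ∧ ∀ m, (N : ℤ) < m → g m = c

/-- `M` is the maximum of `g` -/
def IsTop (g : ℤ → ℤ) (M : ℤ) : Prop := (∃ k, g k = M) ∧ ∀ m, g m ≤ M

theorem IsTop.unique {g : ℤ → ℤ} {M M' : ℤ} (h : IsTop g M) (h' : IsTop g M') : M = M' := by
  obtain ⟨⟨k, hk⟩, h2⟩ := h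
  obtain ⟨⟨k', hk'⟩, h2'⟩ := h'
  have := h2 k'
  have := h2' k
  omega

theorem exists_top {N : ℕ} {g : ℤ → ℤ} {c : ℤ} (h : Tame N g c) : ∃ M, IsTop g M := by
  obtain ⟨k, -, hk2⟩ := Finset.exists_max_image (Finset.Icc (-(N : ℤ) - 1) ((N : ℤ) + 1)) g
    ⟨0, by rw [Finset.mem_Icc]; omega⟩
  refine ⟨g k, ⟨k, rfl⟩, fun m => ?_⟩
  rcases lt_or_ge m (-(N : ℤ)) with h1 | h1
  · have h3 := h.1 m h1
    have h4 := h.1 (-(N : ℤ) - 1) (by omega)
    have h5 := hk2 (-(N : ℤ) - 1) (by rw [Finset.mem_Icc]; omega)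
    omega
  · rcases lt_or_ge (N : ℤ) m with h2 | h2
    · have h3 := h.2 m h2
      have h4 := h.2 ((N : ℤ) + 1) (by omega)
      have h5 := hk2 ((N : ℤ) + 1) (by rw [Finset.mem_Icc]; omega)
      omega
    · exact hk2 m (by rw [Finset.mem_Icc]; omega)

/-- the maximum of `g` -/
def top (g : ℤ → ℤ) : ℤ := if h : ∃ M, IsTop g M then h.choose else 0

theorem top_eq {g : ℤ → ℤ} {M : ℤ} (h : IsTop g M) : top g = M := by
  have h1 : ∃ M, IsTop g M := ⟨M, h⟩
  rw [top, dif_pos h1]
  exact h1.choose_spec.unique h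

theorem Lst.isTop {g : ℤ → ℤ} {k : ℤ} (h : Lst g k) : IsTop g (g k) := ⟨⟨k, rfl⟩, h.1⟩

theorem Fst.isTop {g : ℤ → ℤ} {k : ℤ} (h : Fst g k) : IsTop g (g k) := ⟨⟨k, rfl⟩, h.1⟩

theorem Lst.unique {g : ℤ → ℤ} {k k' : ℤ} (h : Lst g k) (h' : Lst g k') : k = k' := by
  rcases lt_trichotomy k k' with h1 | h1 | h1
  · have h2 := h.2 k' h1
    have h3 := h'.1 k
    omega
  · exact h1
  · have h2 := h'.2 k h1
    have h3 := h.1 k'
    omega

theorem Fst.unique {g : ℤ → ℤ} {k k' : ℤ} (h : Fst g k) (h' : Fst g k') : k = k' := by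
  rcases lt_trichotomy k k' with h1 | h1 | h1
  · have h2 := h'.2 k h1
    have h3 := h.1 k'
    omega
  · exact h1
  · have h2 := h.2 k' h1
    have h3 := h'.1 k
    omega

theorem exists_lst {N : ℕ} {g : ℤ → ℤ} {c M : ℤ} (h : Tame N g c) (hM : IsTop g M) (hc : c ≠ M) :
    ∃ k, Lst g k := by
  obtain ⟨k, hk, hk2⟩ := Int.exists_greatest_of_bdd (P := fun z => g z = M)
    ⟨(N : ℤ), by
      intro z hz
      by_contra h1
      exact hc ((h.2 z (by omega)).symm.trans hz)⟩ hM.1
  refine ⟨k, fun m => ?_, fun m hm => ?_⟩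
  · rw [hk]
    exact hM.2 m
  · rw [hk]
    have h1 := hM.2 m
    rcases eq_or_lt_of_le h1 with h2 | h2
    · exact absurd (hk2 m h2) (by omega)
    · exact h2

theorem exists_fst {N : ℕ} {g : ℤ → ℤ} {c M : ℤ} (h : Tame N g c) (hM : IsTop g M) (hc : 0 ≠ M) :
    ∃ k, Fst g k := by
  obtain ⟨k, hk, hk2⟩ := Int.exists_least_of_bdd (P := fun z => g z = M)
    ⟨-(N : ℤ), by
      intro z hz
      by_contra h1
      exact hc ((h.1 z (by omega)).symm.trans hz)⟩ hM.1
  refine ⟨k, fun m => ?_, fun m hm => ?_⟩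
  · rw [hk]
    exact hM.2 m
  · rw [hk]
    have h1 := hM.2 m
    rcases eq_or_lt_of_le h1 with h2 | h2
    · exact absurd (hk2 m h2) (by omega)
    · exact h2

theorem top_ge {N : ℕ} {g : ℤ → ℤ} {c : ℤ} (h : Tame N g c) : 0 ≤ top g ∧ c ≤ top g := by
  obtain ⟨M, hM⟩ := exists_top h
  rw [top_eq hM]
  constructor
  · rw [← h.1 (-(N : ℤ) - 1) (by omega)]
    exact hM.2 _
  · rw [← h.2 ((N : ℤ) + 1) (by omega)]
    exact hM.2 _

/-- The orders used for the pairs of simple indices. -/
structure Odr (Y : Cartan) where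
  d : Y.I → Y.I → ℤ
  self : ∀ i, d i i = 0
  pair : ∀ i j, i ≠ j → (d i j = 0 ∧ d j i = 1) ∨ (d i j = 1 ∧ d j i = 0)

variable {Y : Cartan}

theorem Odr.bd (o : Odr Y) (i j : Y.I) : 0 ≤ o.d i j ∧ o.d i j ≤ 1 := by
  by_cases h : i = j
  · subst h
    rw [o.self]
    omega
  · rcases o.pair i j h with h1 | h1 <;> omega

/-- the opposite order -/
def Odr.op (o : Odr Y) : Odr Y where
  d := fun i j => o.d j i
  self := o.self
  pair := by
    intro i j h
    rcases o.pair i j h with h1 | h1 <;> omega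

/-- exponents of the monomial `A_i(n)` -/
def ker (o : Odr Y) (i : Y.I) (n : ℤ) (j : Y.I) (m : ℤ) : ℤ :=
  (if n < m + o.d i j then Y.A j i else 0) + (if j = i ∧ m = n then 1 else 0)

theorem ker_self (o : Odr Y) (i : Y.I) (n m : ℤ) :
    ker o i n i m = if m < n then 0 else if m = n then 1 else 2 := by
  have h1 := o.self i
  have h2 := Y.diag i
  unfold ker
  rw [h1, h2, add_zero]
  rcases lt_trichotomy m n with h | h | h
  · rw [if_neg (by omega), if_neg (fun h3 => by have := h3.2; omega), if_pos h, add_zero]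
  · rw [if_neg (by omega), if_pos ⟨rfl, h⟩, if_neg (by omega), if_pos h, zero_add]
  · rw [if_pos (by omega), if_neg (fun h3 => by have := h3.2; omega), if_neg (by omega),
      if_neg (by omega), add_zero]

theorem ker_ne (o : Odr Y) {i j : Y.I} (h : j ≠ i) (n m : ℤ) :
    ker o i n j m = if n < m + o.d i j then Y.A j i else 0 := by
  unfold ker
  rw [if_neg (fun h1 : j = i ∧ m = n => h h1.1), add_zero]

/-- elements of the monomial crystal -/
@[ext] structure Elt (Y : Cartan) where
  p : Y.I → ℤ → ℤ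
  w : Y.I → ℤ
  tame : ∃ N : ℕ, ∀ i, Tame N (p i) (w i)

theorem ker_tame (o : Odr Y) (i : Y.I) (n : ℤ) : ∃ N : ℕ, ∀ j, Tame N (ker o i n j) (Y.A j i) := by
  refine ⟨n.natAbs + 2, fun j => ⟨fun m hm => ?_, fun m hm => ?_⟩⟩
  · have h1 := o.bd i j
    unfold ker
    rw [if_neg (by omega), if_neg (fun h3 => by have := h3.2; omega), add_zero]
  · have h1 := o.bd i j
    unfold ker
    rw [if_pos (by omega), if_neg (fun h3 => by have := h3.2; omega), add_zero]

theorem Tame.mono {N N' : ℕ} (hN : N ≤ N') {g : ℤ → ℤ} {c : ℤ} (h : Tame N g c) : Tame N' g c :=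
  ⟨fun m hm => h.1 m (by omega), fun m hm => h.2 m (by omega)⟩

/-- multiplication by `A_i(n)` -/
def up (o : Odr Y) (i : Y.I) (n : ℤ) (z : Elt Y) : Elt Y where
  p := fun j m => z.p j m + ker o i n j m
  w := fun j => z.w j + Y.A j i
  tame := by
    obtain ⟨N, hN⟩ := z.tame
    obtain ⟨N', hN'⟩ := ker_tame o i n
    refine ⟨N + N', fun j => ⟨fun m hm => ?_, fun m hm => ?_⟩⟩
    · dsimp only
      rw [((hN j).mono (Nat.le_add_right N N')).1 m hm,
        ((hN' j).mono (Nat.le_add_left N' N)).1 m hm, add_zero]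
    · dsimp only
      rw [((hN j).mono (Nat.le_add_right N N')).2 m hm,
        ((hN' j).mono (Nat.le_add_left N' N)).2 m hm]

/-- division by `A_i(n)` -/
def dn (o : Odr Y) (i : Y.I) (n : ℤ) (z : Elt Y) : Elt Y where
  p := fun j m => z.p j m - ker o i n j m
  w := fun j => z.w j - Y.A j i
  tame := by
    obtain ⟨N, hN⟩ := z.tame
    obtain ⟨N', hN'⟩ := ker_tame o i n
    refine ⟨N + N', fun j => ⟨fun m hm => ?_, fun m hm => ?_⟩⟩
    · dsimp only
      rw [((hN j).mono (Nat.le_add_right N N')).1 m hm,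
        ((hN' j).mono (Nat.le_add_left N' N)).1 m hm, sub_zero]
    · dsimp only
      rw [((hN j).mono (Nat.le_add_right N N')).2 m hm,
        ((hN' j).mono (Nat.le_add_left N' N)).2 m hm]

theorem up_dn (o : Odr Y) (i : Y.I) (n : ℤ) (z : Elt Y) : up o i n (dn o i n z) = z := by
  ext j
  · simp only [up, dn]
    ring
  · simp only [up, dn]
    ring

theorem dn_up (o : Odr Y) (i : Y.I) (n : ℤ) (z : Elt Y) : dn o i n (up o i n z) = z := by
  ext j
  · simp only [up, dn]
    ring
  · simp only [up, dn]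
    ring

theorem up_up (o : Odr Y) (i j : Y.I) (n k : ℤ) (z : Elt Y) :
    up o i n (up o j k z) = up o j k (up o i n z) := by
  ext l
  · simp only [up]
    ring
  · simp only [up]
    ring

theorem lst_dn (o : Odr Y) {i : Y.I} {n : ℤ} {z : Elt Y} (h : Fst (z.p i) n) :
    Lst ((dn o i n z).p i) n := by
  refine ⟨fun m => ?_, fun m hm => ?_⟩
  · have h1 := h.1 m
    have h2 := h.2 m
    simp only [dn, ker_self]
    split_ifs <;> omega
  · have h1 := h.1 m
    simp only [dn, ker_self]
    split_ifs <;> omega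

theorem fst_up (o : Odr Y) {i : Y.I} {n : ℤ} {z : Elt Y} (h : Lst (z.p i) n) :
    Fst ((up o i n z).p i) n := by
  refine ⟨fun m => ?_, fun m hm => ?_⟩
  · have h1 := h.1 m
    have h2 := h.2 m
    simp only [up, ker_self]
    split_ifs <;> omega
  · have h1 := h.1 m
    simp only [up, ker_self]
    split_ifs <;> omega

/-- `e_i` -/
def eop (o : Odr Y) (i : Y.I) (z : Elt Y) : Option (Elt Y) :=
  if h : ∃ k, Lst (z.p i) k then some (up o i h.choose z) else none

/-- `f_i` -/
def fop (o : Odr Y) (i : Y.I) (z : Elt Y) : Option (Elt Y) :=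
  if h : ∃ k, Fst (z.p i) k then some (dn o i h.choose z) else none

theorem eop_of (o : Odr Y) {i : Y.I} {z : Elt Y} {k : ℤ} (h : Lst (z.p i) k) :
    eop o i z = some (up o i k z) := by
  have h1 : ∃ k, Lst (z.p i) k := ⟨k, h⟩
  rw [eop, dif_pos h1, h1.choose_spec.unique h]

theorem fop_of (o : Odr Y) {i : Y.I} {z : Elt Y} {k : ℤ} (h : Fst (z.p i) k) :
    fop o i z = some (dn o i k z) := by
  have h1 : ∃ k, Fst (z.p i) k := ⟨k, h⟩
  rw [fop, dif_pos h1, h1.choose_spec.unique h]

theorem eop_some (o : Odr Y) {i : Y.I} {z z' : Elt Y} (h : eop o i z = some z') :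
    ∃ k, Lst (z.p i) k ∧ z' = up o i k z := by
  by_cases h1 : ∃ k, Lst (z.p i) k
  · obtain ⟨k, hk⟩ := h1
    rw [eop_of o hk] at h
    exact ⟨k, hk, (Option.some.inj h).symm⟩
  · rw [eop, dif_neg h1] at h
    exact absurd h (by simp)

theorem fop_some (o : Odr Y) {i : Y.I} {z z' : Elt Y} (h : fop o i z = some z') :
    ∃ k, Fst (z.p i) k ∧ z' = dn o i k z := by
  by_cases h1 : ∃ k, Fst (z.p i) k
  · obtain ⟨k, hk⟩ := h1
    rw [fop_of o hk] at h
    exact ⟨k, hk, (Option.some.inj h).symm⟩
  · rw [fop, dif_neg h1] at h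
    exact absurd h (by simp)

theorem eop_none (o : Odr Y) {i : Y.I} {z : Elt Y} (h : eop o i z = none) :
    top (z.p i) = z.w i := by
  obtain ⟨N, hN⟩ := z.tame
  obtain ⟨M, hM⟩ := exists_top (hN i)
  rw [top_eq hM]
  by_contra h1
  obtain ⟨k, hk⟩ := exists_lst (hN i) hM (fun h2 => h1 h2.symm)
  rw [eop_of o hk] at h
  exact absurd h (by simp)

theorem fop_none (o : Odr Y) {i : Y.I} {z : Elt Y} (h : fop o i z = none) :
    top (z.p i) = 0 := by
  obtain ⟨N, hN⟩ := z.tame
  obtain ⟨M, hM⟩ := exists_top (hN i)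
  rw [top_eq hM]
  by_contra h1
  obtain ⟨k, hk⟩ := exists_fst (hN i) hM (fun h2 => h1 h2.symm)
  rw [fop_of o hk] at h
  exact absurd h (by simp)

theorem top_up (o : Odr Y) {i : Y.I} {z : Elt Y} {k : ℤ} (h : Lst (z.p i) k) :
    top ((up o i k z).p i) = z.p i k + 1 := by
  rw [top_eq (fst_up o h).isTop]
  simp only [up, ker_self]
  simp

theorem top_dn (o : Odr Y) {i : Y.I} {z : Elt Y} {k : ℤ} (h : Fst (z.p i) k) :
    top ((dn o i k z).p i) = z.p i k - 1 := by
  rw [top_eq (lst_dn o h).isTop]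
  simp only [dn, ker_self]
  simp

theorem Elt.top_ge (z : Elt Y) (i : Y.I) : 0 ≤ top (z.p i) ∧ z.w i ≤ top (z.p i) := by
  obtain ⟨N, hN⟩ := z.tame
  exact Pool.Agent.H29.KM.top_ge (hN i)

/-- The crystal of monomials. -/
def mono (o : Odr Y) : Crystal Y where
  B := Elt Y
  wt := Elt.w
  e := eop o
  f := fop o
  eps := fun i z => (top (z.p i) - z.w i).toNat
  phi := fun i z => (top (z.p i)).toNat
  f_iff := by
    intro i z z'
    constructor
    · intro h
      obtain ⟨k, hk, rfl⟩ := fop_some o h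
      rw [eop_of o (lst_dn o hk), up_dn]
    · intro h
      obtain ⟨k, hk, rfl⟩ := eop_some o h
      rw [fop_of o (fst_up o hk), dn_up]
  wt_e := by
    intro i z z' h
    obtain ⟨k, hk, rfl⟩ := eop_some o h
    rfl
  eps_none := by
    intro i z h
    rw [eop_none o h, sub_self]
    rfl
  eps_some := by
    intro i z z' h
    obtain ⟨k, hk, rfl⟩ := eop_some o h
    have h1 := top_up o hk
    have h2 := (up o i k z).top_ge i
    rw [top_eq hk.isTop, h1]
    have h3 : (up o i k z).w i = z.w i + 2 := by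
      rw [← Y.diag i]
      rfl
    omega
  phi_none := by
    intro i z h
    rw [fop_none o h]
    rfl
  phi_some := by
    intro i z z' h
    obtain ⟨k, hk, rfl⟩ := fop_some o h
    have h1 := top_dn o hk
    have h2 := (dn o i k z).top_ge i
    rw [top_eq hk.isTop, h1]
    omega
  phi_eps := by
    intro i z
    have h1 := z.top_ge i
    omega

theorem eps_eq (o : Odr Y) (i : Y.I) (z : Elt Y) :
    (((mono o).eps i z : ℕ) : ℤ) = top (z.p i) - z.w i := by
  have h1 := z.top_ge i
  change (((top (z.p i) - z.w i).toNat : ℕ) : ℤ) = _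
  omega

theorem phi_eq (o : Odr Y) (i : Y.I) (z : Elt Y) :
    (((mono o).phi i z : ℕ) : ℤ) = top (z.p i) := by
  have h1 := z.top_ge i
  change (((top (z.p i)).toNat : ℕ) : ℤ) = _
  omega

theorem Elt.isTop (z : Elt Y) (i : Y.I) : IsTop (z.p i) (top (z.p i)) := by
  obtain ⟨N, hN⟩ := z.tame
  obtain ⟨M, hM⟩ := exists_top (hN i)
  rw [top_eq hM]
  exact hM

theorem Elt.exists_lst (z : Elt Y) (i : Y.I) (h : z.w i ≠ top (z.p i)) :
    ∃ k, Lst (z.p i) k := by
  obtain ⟨N, hN⟩ := z.tame
  exact Pool.Agent.H29.KM.exists_lst (hN i) (z.isTop i) h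

theorem Elt.lt_of_lst (z : Elt Y) {i : Y.I} {k : ℤ} (h : Lst (z.p i) k) : z.w i < z.p i k := by
  obtain ⟨N, hN⟩ := z.tame
  have h1 := h.2 (max (N : ℤ) k + 1) (by omega)
  rw [(hN i).2 _ (by omega)] at h1
  exact h1

theorem mono_s1 (o : Odr Y) (i j : Y.I) (x x' : Elt Y) (hij : i ≠ j)
    (h : (mono o).e i x = some x') :
    (mono o).eps j x ≤ (mono o).eps j x' ∧ (mono o).phi j x' ≤ (mono o).phi j x := by
  obtain ⟨n, hn, rfl⟩ := eop_some o h
  have h1 := eps_eq o j x
  have h2 := eps_eq o j (up o i n x)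
  have h3 := phi_eq o j x
  have h4 := phi_eq o j (up o i n x)
  obtain ⟨⟨k, hk⟩, hk2⟩ := x.isTop j
  obtain ⟨⟨l, hl⟩, hl2⟩ := (up o i n x).isTop j
  have h5 := Y.off j i hij.symm
  have h6 : (up o i n x).w j = x.w j + Y.A j i := rfl
  have h7 := hk2 l
  have h8 := hl2 k
  have h9 : ∀ m, (up o i n x).p j m = x.p j m + if n < m + o.d i j then Y.A j i else 0 := by
    intro m
    simp only [up, ker_ne o hij.symm]
  have h10 := h9 k
  have h11 := h9 l
  split_ifs at h10 h11 <;> omega

theorem mono_s5 (hY : SL Y) (o : Odr Y) (i j : Y.I) (x a b : Elt Y) (hij : i ≠ j)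
    (ha : (mono o).e i x = some a) (hb : (mono o).e j x = some b)
    (he : (mono o).eps j a = (mono o).eps j x) :
    ∃ w, (mono o).e j a = some w ∧ (mono o).e i b = some w ∧
      (mono o).phi i w = (mono o).phi i a := by
  obtain ⟨n, hn, rfl⟩ := eop_some o ha
  obtain ⟨k, hk, rfl⟩ := eop_some o hb
  have h1 := eps_eq o j x
  have h2 := eps_eq o j (up o i n x)
  have h6 : (up o i n x).w j = x.w j + Y.A j i := rfl
  have h7 : ∀ m, (up o i n x).p j m = x.p j m + if n < m + o.d i j then Y.A j i else 0 := by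
    intro m
    simp only [up, ker_ne o hij.symm]
  have h8 : ∀ m, (up o j k x).p i m = x.p i m + if k < m + o.d j i then Y.A i j else 0 := by
    intro m
    simp only [up, ker_ne o hij]
  have h9 := top_eq hk.isTop
  have h10 : ∀ m, (up o i n x).p j m ≤ x.p j k + Y.A j i := by
    intro m
    have h11 := ((up o i n x).isTop j).2 m
    omega
  have h11 := o.pair i j hij
  have hA := hY i j hij
  have h12 : Lst ((up o i n x).p j) k := by
    have hk1 := h7 k
    have hk3 := h10 k
    refine ⟨fun m => ?_, fun m hm => ?_⟩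
    · have h13 := h10 m
      split_ifs at hk1 <;> omega
    · have h13 := h7 m
      have h14 := hk.2 m hm
      split_ifs at hk1 h13 <;> omega
  have h13 : Lst ((up o j k x).p i) n := by
    have hk1 := h7 k
    have hk3 := h10 k
    have hk4 := h8 n
    refine ⟨fun m => ?_, fun m hm => ?_⟩
    · have h13 := h8 m
      have h14 := hn.1 m
      split_ifs at hk1 hk4 h13 <;> omega
    · have h13 := h8 m
      have h14 := hn.2 m hm
      split_ifs at hk1 hk4 h13 <;> omega
  refine ⟨up o j k (up o i n x), eop_of o h12, ?_, ?_⟩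
  · rw [up_up]
    exact eop_of o h13
  · have h14 := phi_eq o i (up o j k (up o i n x))
    have h15 := phi_eq o i (up o i n x)
    rw [top_up o hn] at h15
    rw [up_up, top_up o h13] at h14
    have hk1 := h7 k
    have hk3 := h10 k
    have hk4 := h8 n
    rw [up_up]
    split_ifs at hk1 hk4 <;> omega

/-- The configuration of the relation of length four. -/
theorem aux6 (o : Odr Y) {i j : Y.I} (hij : i ≠ j) (hA : Y.A i j = -1) (hA' : Y.A j i = -1)
    {x : Elt Y} {n k : ℤ} (hn : Lst (x.p i) n) (hk : Lst (x.p j) k) (hnk : n < k + o.d i j)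
    (ht : top ((up o i n x).p j) = top (x.p j)) :
    ∃ k1 n2, Lst ((up o i n x).p j) k1 ∧ Lst ((up o j k1 (up o i n x)).p j) k ∧
      Lst ((up o j k (up o j k1 (up o i n x))).p i) n2 ∧ Lst ((up o j k x).p i) n ∧
      Lst ((up o i n (up o j k x)).p i) n2 ∧ Lst ((up o i n2 (up o i n (up o j k x))).p j) k1 ∧
      top ((up o j k (up o j k1 (up o i n x))).p j) = x.p j k + 2 ∧
      top ((up o j k1 (up o i n2 (up o i n (up o j k x)))).p j) = x.p j k + 1 ∧
      top ((up o i n2 (up o i n (up o j k x))).p i) = x.p i n + 2 ∧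
      top ((up o i n2 (up o j k (up o j k1 (up o i n x)))).p i) = x.p i n + 1 := by
  have hd := o.pair i j hij
  have hji : j ≠ i := hij.symm
  have hkt := top_eq hk.isTop
  have hw := x.lt_of_lst hn
  have hw' := x.lt_of_lst hk
  -- `k1`
  obtain ⟨k1, hk1⟩ := (up o i n x).exists_lst j (by
    have h1 : (up o i n x).w j = x.w j + Y.A j i := rfl
    rw [ht, hkt]
    omega)
  have hk1t := top_eq hk1.isTop
  have ea : ∀ m, (up o i n x).p j m = x.p j m + if n < m + o.d i j then -1 else 0 := by
    intro m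
    simp only [up, ker_ne o hji, hA']
  have hk1a : x.p j k1 = x.p j k ∧ k1 + o.d i j ≤ n := by
    have h1 := ea k1
    have h2 := hk.1 k1
    split_ifs at h1 <;> omega
  -- `p`
  have hp : Lst ((up o j k1 (up o i n x)).p j) k := by
    have ep : ∀ m, (up o j k1 (up o i n x)).p j m = x.p j m + (if n < m + o.d i j then -1 else 0)
        + if m < k1 then 0 else if m = k1 then 1 else 2 := by
      intro m
      rw [← ea m, ← ker_self o j k1 m]
      rfl
    have h1 := ep k
    refine ⟨fun m => ?_, fun m hm => ?_⟩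
    · have h2 := ep m
      have h3 := hk.1 m
      have h4 := hk1.2 m
      have h5 := ea m
      split_ifs at h1 h2 h5 <;> omega
    · have h2 := ep m
      have h3 := hk.2 m hm
      split_ifs at h1 h2 <;> omega
  -- `b`
  have eb : ∀ m, (up o j k x).p i m = x.p i m + if k < m + o.d j i then -1 else 0 := by
    intro m
    simp only [up, ker_ne o hij, hA]
  have hb : Lst ((up o j k x).p i) n := by
    have h1 := eb n
    refine ⟨fun m => ?_, fun m hm => ?_⟩
    · have h2 := eb m
      have h3 := hn.1 m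
      split_ifs at h1 h2 <;> omega
    · have h2 := eb m
      have h3 := hn.2 m hm
      split_ifs at h1 h2 <;> omega
  have hbn : (up o j k x).p i n = x.p i n := by
    have h1 := eb n
    split_ifs at h1 <;> omega
  have hrt : top ((up o i n (up o j k x)).p i) = x.p i n + 1 := by
    rw [top_up o hb, hbn]
  -- `n2`
  obtain ⟨n2, hn2⟩ := (up o i n (up o j k x)).exists_lst i (by
    have h1 : (up o i n (up o j k x)).w i = x.w i + Y.A i j + Y.A i i := rfl
    have h2 := Y.diag i
    rw [hrt]
    omega)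
  have hn2t := top_eq hn2.isTop
  have er : ∀ m, (up o i n (up o j k x)).p i m = x.p i m + (if k < m + o.d j i then -1 else 0)
      + if m < n then 0 else if m = n then 1 else 2 := by
    intro m
    rw [← eb m, ← ker_self o i n m]
    rfl
  have hn2a : n ≤ n2 ∧ n2 + o.d j i ≤ k := by
    have h1 := er n2
    have h2 := hn.1 n2
    have h3 := hn.2 n2
    split_ifs at h1 <;> omega
  -- `q`
  have eq : ∀ m, (up o j k (up o j k1 (up o i n x))).p i m = (up o i n (up o j k x)).p i m +
      if k1 < m + o.d j i then -1 else 0 := by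
    intro m
    rw [er m, ← ker_self o i n m]
    simp only [up, ker_ne o hij, hA]
    ring
  have hq : Lst ((up o j k (up o j k1 (up o i n x))).p i) n2 := by
    have h1 := eq n2
    refine ⟨fun m => ?_, fun m hm => ?_⟩
    · have h2 := eq m
      have h3 := er m
      have h4 := hn.1 m
      have h5 := hn2.1 m
      split_ifs at h1 h2 h3 <;> omega
    · have h2 := eq m
      have h5 := hn2.2 m hm
      split_ifs at h1 h2 <;> omega
  -- `s`
  have es : ∀ m, (up o i n2 (up o i n (up o j k x))).p j m = x.p j m +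
      (if m < k then 0 else if m = k then 1 else 2) + (if n < m + o.d i j then -1 else 0) +
      if n2 < m + o.d i j then -1 else 0 := by
    intro m
    rw [← ker_self o j k m]
    simp only [up, ker_ne o hji, hA']
  have hs : Lst ((up o i n2 (up o i n (up o j k x))).p j) k1 := by
    have h1 := es k1
    have h0 := hk.2 k1
    refine ⟨fun m => ?_, fun m hm => ?_⟩
    · have h2 := es m
      have h3 := hk.1 m
      have h4 := hk.2 m
      have h5 := hk1.2 m
      have h6 := ea m
      split_ifs at h1 h2 h6 <;> omega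
    · have h2 := es m
      have h3 := hk.1 m
      have h4 := hk.2 m
      have h5 := hk1.2 m hm
      have h6 := ea m
      split_ifs at h1 h2 h6 <;> omega
  refine ⟨k1, n2, hk1, hp, hq, hb, hn2, hs, ?_, ?_, ?_, ?_⟩
  · rw [top_up o hp]
    have h1 := ea k1
    have h2 := top_up o hk1
    rw [top_eq hp.isTop] at h2
    omega
  · rw [top_up o hs]
    have h1 := es k1
    have h0 := hk.2 k1
    split_ifs at h1 <;> omega
  · rw [top_up o hn2]
    omega
  · rw [top_up o hq]
    have h1 := eq n2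
    split_ifs at h1 <;> omega

theorem mono_s6 (hY : SL Y) (o : Odr Y) (i j : Y.I) (x a b : Elt Y) (hij : i ≠ j)
    (ha : (mono o).e i x = some a) (hb : (mono o).e j x = some b)
    (he : (mono o).eps j a = (mono o).eps j x + 1)
    (he' : (mono o).eps i b = (mono o).eps i x + 1) :
    ∃ p q r s w, (mono o).e j a = some p ∧ (mono o).e j p = some q ∧ (mono o).e i q = some w ∧
      (mono o).e i b = some r ∧ (mono o).e i r = some s ∧ (mono o).e j s = some w ∧
      (mono o).phi j q = (mono o).phi j w + 1 ∧ (mono o).phi i s = (mono o).phi i w + 1 := by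
  obtain ⟨n, hn, rfl⟩ := eop_some o ha
  obtain ⟨k, hk, rfl⟩ := eop_some o hb
  have h1 := eps_eq o j x
  have h2 := eps_eq o j (up o i n x)
  have h3 := eps_eq o i x
  have h4 := eps_eq o i (up o j k x)
  have h5 : (up o i n x).w j = x.w j + Y.A j i := rfl
  have h6 : (up o j k x).w i = x.w i + Y.A i j := rfl
  have hA : Y.A i j = -1 ∧ Y.A j i = -1 := by
    rcases hY i j hij with ⟨h7, h8⟩ | h7
    · exfalso
      have h9 : (up o i n x).p j = x.p j := by
        funext m
        simp only [up, ker_ne o hij.symm, h8, ite_self, add_zero]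
      rw [h9, h5, h8] at h2
      omega
    · exact h7
  obtain ⟨hA, hA'⟩ := hA
  have hd := o.pair i j hij
  rcases lt_or_ge n (k + o.d i j) with hnk | hnk
  · obtain ⟨k1, n2, g1, g2, g3, g4, g5, g6, g7, g8, g9, g10⟩ :=
      aux6 o hij hA hA' hn hk hnk (by omega)
    have hw : up o i n2 (up o j k (up o j k1 (up o i n x))) =
        up o j k1 (up o i n2 (up o i n (up o j k x))) := by
      ext l
      · simp only [up]
        ring
      · simp only [up]
        ring
    refine ⟨_, _, _, _, _, eop_of o g1, eop_of o g2, eop_of o g3, eop_of o g4, eop_of o g5,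
      ?_, ?_, ?_⟩
    · rw [hw]
      exact eop_of o g6
    · have h7 := phi_eq o j (up o j k (up o j k1 (up o i n x)))
      have h8 := phi_eq o j (up o i n2 (up o j k (up o j k1 (up o i n x))))
      rw [hw] at h8 ⊢
      omega
    · have h7 := phi_eq o i (up o i n2 (up o i n (up o j k x)))
      have h8 := phi_eq o i (up o i n2 (up o j k (up o j k1 (up o i n x))))
      omega
  · obtain ⟨k1, n2, g1, g2, g3, g4, g5, g6, g7, g8, g9, g10⟩ :=
      aux6 o hij.symm hA' hA hk hn (by omega) (by omega)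
    have hw : up o j n2 (up o i n (up o i k1 (up o j k x))) =
        up o i k1 (up o j n2 (up o j k (up o i n x))) := by
      ext l
      · simp only [up]
        ring
      · simp only [up]
        ring
    refine ⟨_, _, _, _, _, eop_of o g4, eop_of o g5, eop_of o g6, eop_of o g1, eop_of o g2,
      ?_, ?_, ?_⟩
    · rw [← hw]
      exact eop_of o g3
    · have h7 := phi_eq o j (up o j n2 (up o j k (up o i n x)))
      have h8 := phi_eq o j (up o j n2 (up o i n (up o i k1 (up o j k x))))
      rw [← hw]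
      omega
    · have h7 := phi_eq o i (up o i n (up o i k1 (up o j k x)))
      have h8 := phi_eq o i (up o i k1 (up o j n2 (up o j k (up o i n x))))
      omega

theorem mono_StE (hY : SL Y) (o : Odr Y) : StE (mono o) where
  s1 := mono_s1 o
  s5 := mono_s5 hY o
  s6 := mono_s6 hY o

/-- the reflection `n ↦ -n` -/
def flip (z : Elt Y) : Elt Y where
  p := fun i m => z.p i (-m) - z.w i
  w := fun i => - z.w i
  tame := by
    obtain ⟨N, hN⟩ := z.tame
    refine ⟨N, fun i => ⟨fun m hm => ?_, fun m hm => ?_⟩⟩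
    · dsimp only
      rw [(hN i).2 (-m) (by omega), sub_self]
    · dsimp only
      rw [(hN i).1 (-m) (by omega), zero_sub]

theorem flip_flip (z : Elt Y) : flip (flip z) = z := by
  ext j
  · simp only [flip, neg_neg]
    ring
  · simp only [flip, neg_neg]

theorem lst_flip {z : Elt Y} {i : Y.I} {k : ℤ} (h : Fst (z.p i) k) : Lst ((flip z).p i) (-k) := by
  refine ⟨fun m => ?_, fun m hm => ?_⟩
  · have h1 := h.1 (-m)
    simp only [flip, neg_neg]
    omega
  · have h1 := h.2 (-m) (by omega)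
    simp only [flip, neg_neg]
    omega

theorem fst_flip {z : Elt Y} {i : Y.I} {k : ℤ} (h : Lst ((flip z).p i) k) : Fst (z.p i) (-k) := by
  refine ⟨fun m => ?_, fun m hm => ?_⟩
  · have h1 := h.1 (-m)
    simp only [flip, neg_neg] at h1
    omega
  · have h1 := h.2 (-m) (by omega)
    simp only [flip, neg_neg] at h1
    omega

theorem flip_dn (o : Odr Y) (i : Y.I) (k : ℤ) (z : Elt Y) :
    flip (dn o i k z) = up o.op i (-k) (flip z) := by
  ext j m
  · simp only [flip, dn, up]
    by_cases hj : j = i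
    · subst hj
      rw [ker_self, ker_self, Y.diag]
      split_ifs <;> omega
    · have h1 := o.pair i j (Ne.symm hj)
      have h2 : o.op.d i j = o.d j i := rfl
      rw [ker_ne o hj, ker_ne o.op hj, h2]
      split_ifs <;> omega
  · simp only [flip, dn, up]
    ring

theorem flip_f (o : Odr Y) {i : Y.I} {z z' : Elt Y} (h : (mono o).f i z = some z') :
    (mono o.op).e i (flip z) = some (flip z') := by
  obtain ⟨k, hk, rfl⟩ := fop_some o h
  rw [flip_dn]
  exact eop_of o.op (lst_flip hk)

theorem flip_e (o : Odr Y) {i : Y.I} {z y : Elt Y} (h : (mono o.op).e i (flip z) = some y) :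
    (mono o).f i z = some (flip y) := by
  obtain ⟨k, hk, rfl⟩ := eop_some o.op h
  have h1 := fst_flip hk
  have h2 := flip_dn o i (-k) z
  rw [neg_neg] at h2
  rw [← h2, flip_flip]
  exact fop_of o h1

theorem top_flip (i : Y.I) (z : Elt Y) : top ((flip z).p i) = top (z.p i) - z.w i := by
  obtain ⟨⟨k, hk⟩, h2⟩ := z.isTop i
  apply top_eq
  refine ⟨⟨-k, ?_⟩, fun m => ?_⟩
  · simp only [flip, neg_neg, hk]
  · have h3 := h2 (-m)
    simp only [flip]
    omega

theorem eps_flip (o : Odr Y) (i : Y.I) (z : Elt Y) :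
    (mono o.op).eps i (flip z) = (mono o).phi i z := by
  have h1 := eps_eq o.op i (flip z)
  have h2 := phi_eq o i z
  have h3 : (flip z).w i = - z.w i := rfl
  rw [top_flip] at h1
  omega

theorem phi_flip (o : Odr Y) (i : Y.I) (z : Elt Y) :
    (mono o.op).phi i (flip z) = (mono o).eps i z := by
  have h1 := phi_eq o.op i (flip z)
  have h2 := eps_eq o i z
  rw [top_flip] at h1
  omega

theorem mono_St (hY : SL Y) (o : Odr Y) : St (mono o) := by
  refine ⟨mono_StE hY o, ?_, ?_, ?_⟩
  · intro i j x x' hij h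
    have h1 := mono_s1 o.op i j (flip x) (flip x') hij (flip_f o h)
    have h2 := eps_flip o j x
    have h3 := eps_flip o j x'
    have h4 := phi_flip o j x
    have h5 := phi_flip o j x'
    exact ⟨(h2.symm.le.trans h1.1).trans h3.le, (h5.symm.le.trans h1.2).trans h4.le⟩
  · intro i j x a b hij ha hb he
    obtain ⟨w, h1, h2, h3⟩ := mono_s5 hY o.op i j (flip x) (flip a) (flip b) hij
      (flip_f o ha) (flip_f o hb) ((eps_flip o j a).trans (he.trans (eps_flip o j x).symm))
    have fp : ∀ (l : Y.I) (y : Elt Y), (mono o.op).phi l y = (mono o).eps l (flip y) := by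
      intro l y
      have h9 := phi_flip o l (flip y)
      rw [flip_flip] at h9
      exact h9
    refine ⟨flip w, flip_e o h1, flip_e o h2, ?_⟩
    exact (fp i w).symm.trans (h3.trans (phi_flip o i a))
  · intro i j x a b hij ha hb he he'
    obtain ⟨p, q, r, s, w, h1, h2, h3, h4, h5, h6, h7, h8⟩ :=
      mono_s6 hY o.op i j (flip x) (flip a) (flip b) hij
      (flip_f o ha) (flip_f o hb)
      ((eps_flip o j a).trans (he.trans (congrArg (· + 1) (eps_flip o j x).symm)))
      ((eps_flip o i b).trans (he'.trans (congrArg (· + 1) (eps_flip o i x).symm)))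
    have fl : ∀ y y' : Elt Y, ∀ l, (mono o.op).e l y = some y' →
        (mono o).f l (flip y) = some (flip y') := by
      intro y y' l h
      rw [← flip_flip y] at h
      exact flip_e o h
    have fp : ∀ (l : Y.I) (y : Elt Y), (mono o.op).phi l y = (mono o).eps l (flip y) := by
      intro l y
      have h9 := phi_flip o l (flip y)
      rw [flip_flip] at h9
      exact h9
    refine ⟨flip p, flip q, flip r, flip s, flip w, flip_e o h1, fl _ _ _ h2, fl _ _ _ h3,
      flip_e o h4, fl _ _ _ h5, fl _ _ _ h6, ?_, ?_⟩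
    · exact (fp j q).symm.trans (h7.trans (congrArg (· + 1) (fp j w)))
    · exact (fp i s).symm.trans (h8.trans (congrArg (· + 1) (fp i w)))

theorem exists_odr (Y : Cartan) : Nonempty (Odr Y) := by
  refine ⟨⟨fun i j => if Fintype.equivFin Y.I i < Fintype.equivFin Y.I j then 1 else 0,
    fun i => by simp, fun i j hij => ?_⟩⟩
  have h1 : Fintype.equivFin Y.I i ≠ Fintype.equivFin Y.I j :=
    fun h => hij ((Fintype.equivFin Y.I).injective h)
  rcases lt_or_gt_of_ne h1 with h2 | h2
  · right
    exact ⟨if_pos h2, if_neg (not_lt.mpr h2.le)⟩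
  · left
    exact ⟨if_neg (not_lt.mpr h2.le), if_pos h2⟩

/-- the monomial `∏ Y_i(0)^{λ_i}` -/
def hwt (lam : Y.I → ℕ) : Elt Y where
  p := fun i m => if 0 ≤ m then (lam i : ℤ) else 0
  w := fun i => lam i
  tame := ⟨0, fun i => ⟨fun m hm => if_neg (by push_cast at hm; omega),
    fun m hm => if_pos (by push_cast at hm; omega)⟩⟩

theorem e_hwt (o : Odr Y) (lam : Y.I → ℕ) (i : Y.I) : (mono o).e i (hwt lam) = none := by
  rcases h : (mono o).e i (hwt lam) with _ | z
  · rfl
  · exfalso
    obtain ⟨k, hk, -⟩ := eop_some o h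
    have h1 := hk.2 (max k 0 + 1) (by omega)
    simp only [hwt] at h1
    split_ifs at h1 <;> omega

/-- Existence of Stembridge crystals with a given highest weight. -/
theorem exists_mono (hY : SL Y) (lam : Y.I → ℕ) : ∃ (X : Crystal Y) (u : X.B), St X ∧
    (∀ i, X.e i u = none) ∧ ∀ i, X.wt u i = lam i := by
  obtain ⟨o⟩ := exists_odr Y
  exact ⟨mono o, hwt lam, mono_St hY o, e_hwt o lam, fun i => rfl⟩

end

end Pool.Agent.H29.KM
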